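import Mathlib

/-!
# Odd Jucys-Murphy elements: basic definitions and commutation
-/

set_option autoImplicit false

namespace Pool.Agent.V8H85.OJM

open Equiv Finset
open scoped Classical

/-- The points: a pair of a block and a bit; `(b, false)` stands for `2 b + 1` and `(b, true)` for
`2 b + 2`. -/
abbrev Pt (n : ℕ) := Fin n × Bool

abbrev G (n : ℕ) := Perm (Pt n)

abbrev A (n : ℕ) := MonoidAlgebra ℂ (G n)

/-- The group element as an element of the group algebra. -/
noncomputable def e {n : ℕ} (g : G n) : A n := MonoidAlgebra.of ℂ (G n) g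

/-- The partner involution. -/
def s0 (n : ℕ) : G n := Equiv.prodCongr (Equiv.refl _) Equiv.boolNot

variable {n : ℕ}

theorem s0_apply (x : Pt n) : s0 n x = (x.1, !x.2) := rfl

theorem s0_s0 (x : Pt n) : s0 n (s0 n x) = x := by
  rw [s0_apply, s0_apply]; simp

theorem s0_mul : s0 n * s0 n = 1 := by
  ext1 x
  exact s0_s0 x

theorem s0_ne (x : Pt n) : s0 n x ≠ x := by
  intro h
  have := congrArg Prod.snd h
  simp [s0_apply] at this

/-- The hyperoctahedral group, as the centraliser of the partner involution. -/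
def Hn (n : ℕ) : Subgroup (G n) where
  carrier := {h | ∀ x, h (s0 n x) = s0 n (h x)}
  one_mem' := fun _ => rfl
  mul_mem' := by
    intro a b ha hb x
    rw [Perm.mul_apply, Perm.mul_apply, hb, ha]
  inv_mem' := by
    intro a ha x
    apply a.injective
    rw [ha]
    simp

theorem mem_H {h : G n} : h ∈ Hn n ↔ ∀ x, h (s0 n x) = s0 n (h x) := Iff.rfl

theorem e_mul (g h : G n) : e (g * h) = e g * e h := map_mul _ _ _

theorem e_one : e (1 : G n) = 1 := map_one _

/-- The sum of the elements of the hyperoctahedral group. -/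
noncomputable def P (n : ℕ) : A n := ∑ h ∈ univ.filter (· ∈ Hn n), e h

theorem e_mul_P {h : G n} (hh : h ∈ Hn n) : e h * P n = P n := by
  unfold P
  rw [mul_sum]
  simp only [← e_mul]
  refine sum_equiv (Equiv.mulLeft h) (fun g => ?_) (fun g _ => rfl)
  simp only [mem_filter, mem_univ, true_and, Equiv.coe_mulLeft]
  exact ⟨fun hg => mul_mem hh hg, fun hg => by simpa using mul_mem (inv_mem hh) hg⟩

theorem P_mul_e {h : G n} (hh : h ∈ Hn n) : P n * e h = P n := by
  unfold P
  rw [sum_mul]
  simp only [← e_mul]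
  refine sum_equiv (Equiv.mulRight h) (fun g => ?_) (fun g _ => rfl)
  simp only [mem_filter, mem_univ, true_and, Equiv.coe_mulRight]
  exact ⟨fun hg => mul_mem hg hh, fun hg => by simpa using mul_mem hg (inv_mem hh)⟩

/-- The order of the hyperoctahedral group. -/
noncomputable def hcard (n : ℕ) : ℂ := ((univ.filter (· ∈ Hn n)).card : ℂ)

theorem hcard_ne : hcard n ≠ 0 := by
  unfold hcard
  rw [Nat.cast_ne_zero]
  exact (card_pos.2 ⟨1, by simp [one_mem]⟩).ne'

/-- A left invariant element is multiplied by `|H|` by `P`. -/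
theorem P_mul_of_inv {x : A n} (hx : ∀ h ∈ Hn n, e h * x = x) : P n * x = hcard n • x := by
  unfold P hcard
  rw [sum_mul, sum_congr rfl (fun h hh => hx h (mem_filter.1 hh).2), sum_const]
  exact (Nat.cast_smul_eq_nsmul ℂ _ _).symm

/-- Sums of transpositions `(a c)` over the `a` with a property. -/
noncomputable def SS (p : Pt n → Prop) (c : Pt n) : A n := ∑ a ∈ univ.filter p, e (swap a c)

theorem e_mul_SS (g : G n) (p q : Pt n → Prop) (c : Pt n) (hpq : ∀ a, p a ↔ q (g a)) :
    e g * SS p c = SS q (g c) * e g := by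
  unfold SS
  rw [mul_sum, sum_mul]
  simp only [← e_mul]
  refine sum_equiv g (fun a => ?_) (fun a _ => ?_)
  · simp only [mem_filter, mem_univ, true_and]
    exact hpq a
  · rw [Equiv.mul_swap_eq_swap_mul]

/-- The odd Jucys-Murphy elements. -/
noncomputable def J (b : Fin n) : A n := SS (fun a : Pt n => a.1 < b) (b, false)

theorem e_mul_J {g : G n} {b : Fin n} (h1 : g (b, false) = (b, false))
    (h2 : ∀ a : Pt n, a.1 < b ↔ (g a).1 < b) : e g * J b = J b * e g := by
  unfold J
  rw [e_mul_SS g (fun a => a.1 < b) (fun a => a.1 < b) (b, false) h2, h1]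

theorem swap_fst_lt {x y a : Pt n} {b : Fin n} (hx : x.1 < b) (hy : y.1 < b) :
    a.1 < b ↔ (swap x y a).1 < b := by
  rw [Equiv.swap_apply_def]
  split_ifs with h1 h2
  · rw [h1]; exact ⟨fun _ => hy, fun _ => hx⟩
  · rw [h2]; exact ⟨fun _ => hx, fun _ => hy⟩
  · rfl

theorem J_comm_lt {b c : Fin n} (h : b < c) : J b * J c = J c * J b := by
  have hb : J b = SS (fun a : Pt n => a.1 < b) (b, false) := rfl
  rw [hb, SS, sum_mul, mul_sum]
  refine sum_congr rfl fun a ha => ?_
  have ha' : a.1 < b := by simpa using ha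
  refine e_mul_J ?_ fun x => swap_fst_lt (ha'.trans h) h
  rw [swap_apply_of_ne_of_ne]
  · intro h'
    have : c = a.1 := congrArg Prod.fst h'
    omega
  · intro h'
    have : c = b := congrArg Prod.fst h'
    omega

theorem J_comm (b c : Fin n) : J b * J c = J c * J b := by
  rcases lt_trichotomy b c with h | h | h
  · exact J_comm_lt h
  · rw [h]
  · exact (J_comm_lt h).symm

/-- The commutative algebra generated by the odd Jucys-Murphy elements. -/
noncomputable def JA (n : ℕ) : Subalgebra ℂ (A n) := Algebra.adjoin ℂ (Set.range (J (n := n)))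

instance : IsMulCommutative (JA n) :=
  Algebra.isMulCommutative_adjoin ℂ (by
    rintro _ ⟨b, rfl⟩ _ ⟨c, rfl⟩
    exact J_comm b c)

open scoped IsMulCommutative

/-- Evaluation of polynomials at the odd Jucys-Murphy elements. -/
noncomputable def Phi (n : ℕ) : MvPolynomial (Fin n) ℂ →ₐ[ℂ] A n :=
  (JA n).val.comp (MvPolynomial.aeval fun b => (⟨J b, Algebra.subset_adjoin ⟨b, rfl⟩⟩ : JA n))

theorem Phi_X (b : Fin n) : Phi n (MvPolynomial.X b) = J b := by
  unfold Phi
  rw [AlgHom.comp_apply, MvPolynomial.aeval_X]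
  rfl

end Pool.Agent.V8H85.OJM
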