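import Pool.Agent.V8H85.OJM.Base

/-!
# Odd Jucys-Murphy elements: left invariance of symmetric polynomials
-/

set_option autoImplicit false

namespace Pool.Agent.V8H85.OJM

open Equiv Finset
open scoped Classical

variable {n : ℕ}

theorem swap_pair_mem {x y : Pt n} (hxy : x ≠ s0 n y) :
    swap (s0 n x) (s0 n y) * swap x y ∈ Hn n := by
  have hyx : y ≠ s0 n x := fun h => hxy (by rw [h, s0_s0])
  have hc : swap x y * swap (s0 n x) (s0 n y) = swap (s0 n x) (s0 n y) * swap x y := by
    rw [Equiv.mul_swap_eq_swap_mul, swap_apply_of_ne_of_ne (s0_ne x) hyx.symm,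
      swap_apply_of_ne_of_ne hxy.symm (s0_ne y)]
  have h1 : ∀ a b : Pt n, s0 n * swap a b = swap (s0 n a) (s0 n b) * s0 n := fun a b =>
    Equiv.mul_swap_eq_swap_mul _ _ _
  have h2 : s0 n * (swap (s0 n x) (s0 n y) * swap x y) =
      (swap (s0 n x) (s0 n y) * swap x y) * s0 n := by
    rw [← mul_assoc, h1, s0_s0, s0_s0, mul_assoc, h1, ← mul_assoc, hc]
  intro z
  have := congrArg (fun g : G n => g z) h2
  exact this.symm

theorem swap_P {x y : Pt n} (hxy : x ≠ s0 n y) :
    e (swap x y) * P n = e (swap (s0 n x) (s0 n y)) * P n := by
  have h := e_mul_P (swap_pair_mem hxy)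
  have h2 : swap x y = swap (s0 n x) (s0 n y) * (swap (s0 n x) (s0 n y) * swap x y) := by
    rw [← mul_assoc, swap_mul_self, one_mul]
  rw [h2, e_mul, mul_assoc, h]

theorem SS_flip (i : Fin n) (b c : Bool) :
    SS (fun a : Pt n => a.1 < i) (i, b) * P n = SS (fun a : Pt n => a.1 < i) (i, c) * P n := by
  have key : ∀ b : Bool, SS (fun a : Pt n => a.1 < i) (i, b) * P n =
      SS (fun a : Pt n => a.1 < i) (i, !b) * P n := by
    intro b
    unfold SS
    rw [sum_mul, sum_mul]
    refine sum_equiv (s0 n) (fun a => ?_) (fun a ha => ?_)
    · simp only [mem_filter, mem_univ, true_and]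
      rfl
    · have ha' : a.1 < i := by simpa using ha
      rw [swap_P]
      · rfl
      · intro h
        rw [h] at ha'
        exact lt_irrefl _ ha'
  cases b <;> cases c
  · rfl
  · exact key false
  · exact key true
  · rfl

/-- The group elements which fix `X` from the left. -/
noncomputable def Stab (X : A n) : Subgroup (G n) where
  carrier := {g | e g * X = X}
  one_mem' := by
    show e 1 * X = X
    rw [e_one, one_mul]
  mul_mem' := by
    intro a b ha hb
    show e (a * b) * X = X
    rw [e_mul, mul_assoc]
    rw [show e b * X = X from hb, show e a * X = X from ha]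
  inv_mem' := by
    intro a ha
    show e a⁻¹ * X = X
    have h : e a * X = X := ha
    conv_lhs => rw [← h]
    rw [← mul_assoc, ← e_mul, inv_mul_cancel, e_one, one_mul]

/-- A permutation of the blocks. -/
def lift (π : Perm (Fin n)) : G n := Equiv.prodCongr π (Equiv.refl _)

theorem lift_apply (π : Perm (Fin n)) (x : Pt n) : lift π x = (π x.1, x.2) := rfl

/-- Block permutations as a homomorphism. -/
def liftHom : Perm (Fin n) →* G n where
  toFun := lift
  map_one' := by ext x <;> rfl
  map_mul' := fun a b => by ext x <;> rfl

/-- Flips of some of the blocks. -/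
def flipf (f : Fin n → Bool) : G n where
  toFun x := (x.1, xor x.2 (f x.1))
  invFun x := (x.1, xor x.2 (f x.1))
  left_inv x := by simp
  right_inv x := by simp

theorem flipf_apply (f : Fin n → Bool) (x : Pt n) : flipf f x = (x.1, xor x.2 (f x.1)) := rfl

theorem flip_mem (S : Subgroup (G n)) (h : ∀ i : Fin n, swap (i, false) (i, true) ∈ S)
    (f : Fin n → Bool) : flipf f ∈ S := by
  have key : ∀ s : Finset (Fin n), flipf (fun k => decide (k ∈ s)) ∈ S := by
    intro s
    induction s using Finset.induction_on with
    | empty =>
      have : flipf (fun k : Fin n => decide (k ∈ (∅ : Finset (Fin n)))) = 1 := by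
        ext1 x
        rw [flipf_apply]
        simp
      rw [this]
      exact one_mem _
    | insert a s ha ih =>
      have : flipf (fun k : Fin n => decide (k ∈ insert a s)) =
          swap (a, false) (a, true) * flipf (fun k => decide (k ∈ s)) := by
        ext1 ⟨k, c⟩
        rw [Perm.mul_apply, flipf_apply, flipf_apply]
        by_cases hk : k = a
        · subst hk
          cases c <;> simp [ha, swap_apply_left, swap_apply_right]
        · rw [swap_apply_of_ne_of_ne]
          · simp [hk]
          · exact fun h' => hk (congrArg Prod.fst h')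
          · exact fun h' => hk (congrArg Prod.fst h')
      rw [this]
      exact mul_mem (h a) ih
  have := key (univ.filter fun k => f k = true)
  simpa using this

theorem lift_mem (S : Subgroup (G n)) (h : ∀ i j : Fin n, i.1 + 1 = j.1 → lift (swap i j) ∈ S)
    (π : Perm (Fin n)) : lift π ∈ S := by
  rcases n with _ | m
  · have : lift π = 1 := by
      ext1 x
      exact x.1.elim0
    rw [this]
    exact one_mem S
  · have h1 : Submonoid.closure (Set.range fun i : Fin m => swap i.castSucc i.succ) ≤
        (S.comap liftHom).toSubmonoid := by
      rw [Submonoid.closure_le]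
      rintro _ ⟨i, rfl⟩
      exact h _ _ (by simp)
    rw [Equiv.Perm.mclosure_swap_castSucc_succ] at h1
    exact h1 (Submonoid.mem_top π)

theorem H_le (S : Subgroup (G n)) (h1 : ∀ i : Fin n, swap (i, false) (i, true) ∈ S)
    (h2 : ∀ i j : Fin n, i.1 + 1 = j.1 → lift (swap i j) ∈ S) : Hn n ≤ S := by
  intro h hh
  have hinj : Function.Injective fun k : Fin n => (h (k, false)).1 := by
    intro k k' hk
    rcases Bool.eq_or_eq_not (h (k, false)).2 (h (k', false)).2 with hc | hc
    · have : h (k, false) = h (k', false) := Prod.ext hk hc
      exact congrArg Prod.fst (h.injective this)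
    · have : h (k, false) = h (s0 n (k', false)) := by
        rw [hh (k', false), s0_apply]
        exact Prod.ext hk hc
      exact congrArg Prod.fst (h.injective this)
  let π : Perm (Fin n) := Equiv.ofBijective _ (Finite.injective_iff_bijective.1 hinj)
  have hπ : ∀ k, π k = (h (k, false)).1 := fun k => rfl
  have : h = lift π * flipf fun k => (h (k, false)).2 := by
    ext1 ⟨k, c⟩
    rw [Perm.mul_apply, flipf_apply, lift_apply]
    cases c
    · rw [hπ]
      simp
    · have h3 : h (k, true) = s0 n (h (k, false)) := hh (k, false)
      rw [h3, s0_apply, hπ]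
      simp
  rw [this]
  exact mul_mem (lift_mem S h2 π) (flip_mem S h1 _)

/-- The elements `x` for which `x P` is invariant from the left. -/
noncomputable def B (n : ℕ) : Subalgebra ℂ (A n) where
  carrier := {x | ∀ h ∈ Hn n, e h * (x * P n) = x * P n}
  mul_mem' := by
    intro x y hx hy h hh
    have h1 : y * P n = (hcard n)⁻¹ • (P n * (y * P n)) := by
      rw [P_mul_of_inv hy, smul_smul, inv_mul_cancel₀ hcard_ne, one_smul]
    rw [mul_assoc x y, h1]
    simp only [mul_smul_comm]
    rw [← mul_assoc x, ← mul_assoc (e h), hx h hh]
  one_mem' := by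
    intro h hh
    rw [one_mul, e_mul_P hh]
  add_mem' := by
    intro x y hx hy h hh
    rw [add_mul, mul_add, hx h hh, hy h hh]
  zero_mem' := by
    intro h hh
    rw [zero_mul, mul_zero]
  algebraMap_mem' := by
    intro r h hh
    rw [Algebra.algebraMap_eq_smul_one, smul_mul_assoc, one_mul, mul_smul_comm, e_mul_P hh]

theorem mem_B {x : A n} : x ∈ B n ↔ ∀ h ∈ Hn n, e h * (x * P n) = x * P n := Iff.rfl

/-- A product commutes with a group element if the factors do. -/
theorem comm_prod (g : G n) (s : Finset (Fin n)) (t : ℂ) (h : ∀ b ∈ s, e g * J b = J b * e g) :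
    e g * Phi n (∏ b ∈ s, (MvPolynomial.C t + MvPolynomial.X b)) =
      Phi n (∏ b ∈ s, (MvPolynomial.C t + MvPolynomial.X b)) * e g := by
  induction s using Finset.induction_on with
  | empty => simp
  | insert a s ha ih =>
    rw [prod_insert ha, map_mul, ← mul_assoc]
    have h1 : e g * Phi n (MvPolynomial.C t + MvPolynomial.X a) =
        Phi n (MvPolynomial.C t + MvPolynomial.X a) * e g := by
      rw [map_add, Phi_X, mul_add, add_mul, h a (mem_insert_self _ _)]
      congr 1
      rw [← MvPolynomial.algebraMap_eq, AlgHom.commutes]
      exact (Algebra.commutes t (e g)).symm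
    rw [h1, mul_assoc, ih fun b hb => h b (mem_insert_of_mem hb), mul_assoc]

/-- Two adjacent factors. -/
theorem adj_inv (t : ℂ) (i j : Fin n) (hij : i.1 + 1 = j.1) :
    e (lift (swap i j)) * ((t • (1 : A n) + J i) * ((t • (1 : A n) + J j) * P n)) =
      (t • (1 : A n) + J i) * ((t • (1 : A n) + J j) * P n) := by
  have hne : j ≠ i := by
    intro h
    rw [h] at hij
    omega
  set g : G n := lift (swap i j) with hg
  have hgi : ∀ c, g (i, c) = (j, c) := fun c => by rw [hg, lift_apply, swap_apply_left]
  have hgj : ∀ c, g (j, c) = (i, c) := fun c => by rw [hg, lift_apply, swap_apply_right]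
  have hgH : g ∈ Hn n := fun x => rfl
  have hgP : e g * P n = P n := e_mul_P hgH
  have hp : ∀ a : Pt n, a.1 < i ↔ (g a).1 < i := by
    intro a
    rw [hg, lift_apply, swap_apply_def]
    split_ifs with h2 h3
    · rw [h2]
      constructor
      · intro h; exact absurd h (lt_irrefl _)
      · intro h
        have : j.1 < i.1 := h
        omega
    · rw [h3]
      constructor
      · intro h
        have : j.1 < i.1 := h
        omega
      · intro h; exact absurd h (lt_irrefl _)
    · rfl
  set A' : A n := SS (fun a : Pt n => a.1 < i) (j, false) with hA'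
  set U : A n := e (swap ((i, false) : Pt n) (j, false)) + e (swap ((i, true) : Pt n) (j, false))
    with hU
  set U' : A n := e (swap ((j, false) : Pt n) (i, false)) + e (swap ((j, true) : Pt n) (i, false))
    with hU'
  have hJj : J j = A' + U := by
    have h1 : (univ.filter fun a : Pt n => a.1 < j) =
        (univ.filter fun a : Pt n => a.1 < i) ∪ {(i, false), (i, true)} := by
      ext ⟨k, c⟩
      simp only [mem_filter, mem_univ, true_and, mem_union, mem_insert, mem_singleton,
        Prod.mk.injEq]
      constructor
      · intro h
        have h4 : k.1 < j.1 := h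
        by_cases h5 : k = i
        · right
          cases c <;> simp [h5]
        · left
          have h6 : k.1 ≠ i.1 := fun h => h5 (Fin.ext h)
          exact Fin.lt_def.2 (by omega)
      · rintro (h | h | h)
        · have h4 : k.1 < i.1 := h
          exact Fin.lt_def.2 (by omega)
        · rw [h.1]
          exact Fin.lt_def.2 (by omega)
        · rw [h.1]
          exact Fin.lt_def.2 (by omega)
    have h2 : Disjoint (univ.filter fun a : Pt n => a.1 < i) {(i, false), (i, true)} := by
      rw [disjoint_left]
      intro a ha ha'
      have h3 : a.1 < i := by simpa using ha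
      simp only [mem_insert, mem_singleton] at ha'
      rcases ha' with h | h <;> rw [h] at h3 <;> exact lt_irrefl _ h3
    rw [hA', hU, J, SS, SS]
    have h3 := sum_union (f := fun a => e (swap a ((j, false) : Pt n))) h2
    rw [sum_pair (by simp), ← h1] at h3
    convert h3
  have e1 : e g * J i = A' * e g := by
    have := e_mul_SS g (fun a : Pt n => a.1 < i) (fun a : Pt n => a.1 < i) (i, false) hp
    rw [hgi] at this
    exact this
  have e2 : e g * A' = J i * e g := by
    have := e_mul_SS g (fun a : Pt n => a.1 < i) (fun a : Pt n => a.1 < i) (j, false) hp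
    rw [hgj] at this
    exact this
  have e3 : e g * U = U' * e g := by
    rw [hU, hU', mul_add, add_mul, ← e_mul, ← e_mul, ← e_mul, ← e_mul,
      Equiv.mul_swap_eq_swap_mul, Equiv.mul_swap_eq_swap_mul, hgi, hgj, hgi]
  have e4 : U' * P n = U * P n := by
    rw [hU, hU', add_mul, add_mul, swap_comm ((j, false) : Pt n)]
    congr 1
    rw [swap_P]
    · rw [s0_apply, s0_apply, swap_comm]
      rfl
    · intro h
      exact hne (congrArg Prod.fst h)
  have e5 : A' * (U * P n) = U * (J i * P n) := by
    rw [hU, add_mul, add_mul, mul_add]
    congr 1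
    · have := e_mul_SS (swap ((i, false) : Pt n) (j, false)) (fun a : Pt n => a.1 < i)
        (fun a : Pt n => a.1 < i) (i, false) (fun a => ?_)
      · rw [swap_apply_left] at this
        rw [← mul_assoc, ← mul_assoc, hA', ← this]
        rfl
      · rw [swap_apply_def]
        split_ifs with h2 h3
        · rw [h2]
          constructor
          · intro h; exact absurd h (lt_irrefl _)
          · intro h
            have : j.1 < i.1 := h
            omega
        · rw [h3]
          constructor
          · intro h
            have : j.1 < i.1 := h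
            omega
          · intro h; exact absurd h (lt_irrefl _)
        · rfl
    · have := e_mul_SS (swap ((i, true) : Pt n) (j, false)) (fun a : Pt n => a.1 < i)
        (fun a : Pt n => a.1 < i) (i, true) (fun a => ?_)
      · rw [swap_apply_left] at this
        have h7 : J i * P n = SS (fun a : Pt n => a.1 < i) (i, true) * P n :=
          SS_flip i false true
        rw [h7, ← mul_assoc, ← mul_assoc, hA', ← this]
      · rw [swap_apply_def]
        split_ifs with h2 h3
        · rw [h2]
          constructor
          · intro h; exact absurd h (lt_irrefl _)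
          · intro h
            have : j.1 < i.1 := h
            omega
        · rw [h3]
          constructor
          · intro h
            have : j.1 < i.1 := h
            omega
          · intro h; exact absurd h (lt_irrefl _)
        · rfl
  -- the two symmetric functions of `J i`, `J j`
  have f1 : e g * ((J i + J j) * P n) = (J i + J j) * P n := by
    rw [hJj, add_mul, add_mul, mul_add, mul_add, ← mul_assoc (e g), ← mul_assoc (e g),
      ← mul_assoc (e g), e1, e2, e3, mul_assoc A', mul_assoc (J i), mul_assoc U', hgP, e4]
    abel
  have f2 : e g * (J i * (J j * P n)) = J i * (J j * P n) := by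
    have h8 : J i * (J j * P n) = J j * (J i * P n) := by
      rw [← mul_assoc, ← mul_assoc, J_comm]
    conv_rhs => rw [h8, hJj, add_mul]
    rw [hJj, ← mul_assoc (e g), e1, mul_assoc A', add_mul, mul_add, ← mul_assoc (e g),
      ← mul_assoc (e g), e2, e3, mul_assoc (J i), mul_assoc U', hgP, e4, mul_add, e5]
  have f3 : ∀ Y : A n, (t • (1 : A n) + J i) * ((t • (1 : A n) + J j) * Y) =
      t • t • Y + t • ((J i + J j) * Y) + J i * (J j * Y) := by
    intro Y
    simp only [add_mul, smul_mul_assoc, one_mul, mul_add, mul_smul_comm, smul_add]
    abel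
  rw [f3, mul_add, mul_add, f2, mul_smul_comm, mul_smul_comm, mul_smul_comm, f1, hgP]

/-- `∏ (t + J b)` is in `B`. -/
theorem prod_mem_B (t : ℂ) : Phi n (∏ b, (MvPolynomial.C t + MvPolynomial.X b)) ∈ B n := by
  rw [mem_B]
  have hC : ∀ b : Fin n, Phi n (MvPolynomial.C t + MvPolynomial.X b) = t • 1 + J b := by
    intro b
    rw [map_add, Phi_X, ← MvPolynomial.algebraMap_eq, AlgHom.commutes,
      Algebra.algebraMap_eq_smul_one]
  have key : Hn n ≤ Stab (Phi n (∏ b, (MvPolynomial.C t + MvPolynomial.X b)) * P n) := by
    refine H_le _ (fun i => ?_) (fun i j hij => ?_)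
    · show e _ * _ = _
      rw [← mul_prod_erase univ _ (mem_univ i), mul_comm, map_mul, ← mul_assoc, ← mul_assoc,
        comm_prod]
      · rw [hC, mul_assoc, mul_assoc, mul_assoc]
        congr 1
        rw [add_mul, mul_add, smul_mul_assoc, one_mul, mul_smul_comm]
        have hm : swap ((i, false) : Pt n) (i, true) ∈ Hn n := by
          rintro ⟨k, c⟩
          rw [s0_apply]
          by_cases hk : k = i
          · subst hk
            cases c <;> simp [s0_apply]
          · rw [swap_apply_of_ne_of_ne, swap_apply_of_ne_of_ne, s0_apply]
            all_goals exact fun h' => hk (congrArg Prod.fst h')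
        rw [e_mul_P hm]
        congr 1
        have h1 : e (swap ((i, false) : Pt n) (i, true)) * J i =
            SS (fun a : Pt n => a.1 < i) (i, true) * e (swap ((i, false) : Pt n) (i, true)) := by
          have := e_mul_SS (swap ((i, false) : Pt n) (i, true)) (fun a : Pt n => a.1 < i)
            (fun a : Pt n => a.1 < i) (i, false) (fun a => ?_)
          · rw [swap_apply_left] at this
            exact this
          · rw [swap_apply_def]
            split_ifs with h2 h3
            · rw [h2]
            · rw [h3]
            · rfl
        rw [← mul_assoc, h1, mul_assoc, e_mul_P hm]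
        exact SS_flip i true false
      · intro b hb
        have hbi : b ≠ i := (mem_erase.1 hb).1
        refine e_mul_J ?_ fun a => ?_
        · rw [swap_apply_of_ne_of_ne]
          all_goals exact fun h' => hbi (congrArg Prod.fst h')
        · rw [swap_apply_def]
          split_ifs with h2 h3
          · rw [h2]
          · rw [h3]
          · rfl
    · show e _ * _ = _
      have hne : j ≠ i := by
        intro h
        rw [h] at hij
        omega
      have hj : j ∈ univ.erase i := mem_erase.2 ⟨hne, mem_univ _⟩
      have h0 : Phi n (∏ b, (MvPolynomial.C t + MvPolynomial.X b)) =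
          Phi n (∏ b ∈ (univ.erase i).erase j, (MvPolynomial.C t + MvPolynomial.X b)) *
            ((t • (1 : A n) + J i) * (t • (1 : A n) + J j)) := by
        rw [← hC, ← hC, ← map_mul, ← map_mul, ← mul_prod_erase univ _ (mem_univ i),
          ← mul_prod_erase (univ.erase i) _ hj]
        congr 1
        ring
      have h1 : e (lift (swap i j)) *
          Phi n (∏ b ∈ (univ.erase i).erase j, (MvPolynomial.C t + MvPolynomial.X b)) =
          Phi n (∏ b ∈ (univ.erase i).erase j, (MvPolynomial.C t + MvPolynomial.X b)) *
            e (lift (swap i j)) := by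
        refine comm_prod _ _ _ fun b hb => ?_
        have hbi : b ≠ i := fun h => by simp [h] at hb
        have hbj : b ≠ j := fun h => by simp [h] at hb
        have hbi' : b.1 ≠ i.1 := fun h => hbi (Fin.ext h)
        have hbj' : b.1 ≠ j.1 := fun h => hbj (Fin.ext h)
        refine e_mul_J ?_ fun a => ?_
        · rw [lift_apply, swap_apply_of_ne_of_ne hbi hbj]
        · rw [lift_apply]
          show a.1 < b ↔ swap i j a.1 < b
          rw [swap_apply_def]
          split_ifs with h2 h3
          · rw [h2, Fin.lt_def, Fin.lt_def]
            omega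
          · rw [h3, Fin.lt_def, Fin.lt_def]
            omega
          · rfl
      rw [h0, mul_assoc (Phi n _), ← mul_assoc (e _), h1, mul_assoc (Phi n _), mul_assoc (_ + J i),
        adj_inv t i j hij]
  exact fun h hh => key hh

end Pool.Agent.V8H85.OJM
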