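import Pool.Agent.V8H85.OJM.Words

/-!
# Odd Jucys-Murphy elements: representatives of the double cosets
-/

set_option autoImplicit false

namespace Pool.Agent.V8H85.OJM

open Equiv Finset
open scoped Classical

variable {n : ℕ}

/-- A permutation of the blocks acting only on the first points of the blocks. -/
def evn (ρ : Perm (Fin n)) : G n where
  toFun x := (cond x.2 x.1 (ρ x.1), x.2)
  invFun x := (cond x.2 x.1 (ρ.symm x.1), x.2)
  left_inv x := by
    rcases x with ⟨k, c⟩
    cases c <;> simp
  right_inv x := by
    rcases x with ⟨k, c⟩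
    cases c <;> simp

theorem evn_false (ρ : Perm (Fin n)) (k : Fin n) : evn ρ (k, false) = (ρ k, false) := rfl
theorem evn_true (ρ : Perm (Fin n)) (k : Fin n) : evn ρ (k, true) = (k, true) := rfl

theorem evn_mul (ρ τ : Perm (Fin n)) : evn (ρ * τ) = evn ρ * evn τ := by
  ext1 ⟨k, c⟩
  cases c <;> rfl

theorem evn_one : evn (1 : Perm (Fin n)) = 1 := by
  ext1 ⟨k, c⟩
  cases c <;> rfl

theorem evn_swap (a b : Fin n) : evn (swap a b) = swap (a, false) (b, false) := by
  ext1 ⟨k, c⟩
  cases c
  · rw [evn_false]
    by_cases ha : k = a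
    · subst ha
      rw [swap_apply_left, swap_apply_left]
    · by_cases hb : k = b
      · subst hb
        rw [swap_apply_right, swap_apply_right]
      · rw [swap_apply_of_ne_of_ne ha hb, swap_apply_of_ne_of_ne]
        · exact fun h => ha (congrArg Prod.fst h)
        · exact fun h => hb (congrArg Prod.fst h)
  · rw [evn_true, swap_apply_of_ne_of_ne]
    · exact fun h => Bool.noConfusion (congrArg Prod.snd h)
    · exact fun h => Bool.noConfusion (congrArg Prod.snd h)

theorem lift_mem_H (π : Perm (Fin n)) : lift π ∈ Hn n := fun _ => rfl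

theorem flipf_mem_H (f : Fin n → Bool) : flipf f ∈ Hn n := by
  rintro ⟨k, c⟩
  rw [s0_apply, flipf_apply, flipf_apply, s0_apply]
  cases c <;> cases h : f k <;> simp

/-- Every double coset has a representative which moves only first points of blocks. -/
theorem exists_rep (σ : G n) : ∃ ρ : Perm (Fin n), ∃ h ∈ Hn n, ∃ k ∈ Hn n, σ = h * evn ρ * k := by
  let t : Fin n → Finset (Fin n) := fun k => univ.filter fun j => ∃ c, (σ (j, c)).1 = k
  have hall : ∀ A : Finset (Fin n), A.card ≤ (A.biUnion t).card := by
    intro A
    have h1 : (A ×ˢ (univ : Finset Bool)).card ≤ ((A.biUnion t) ×ˢ (univ : Finset Bool)).card := by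
      refine card_le_card_of_injOn (fun x => σ.symm x) (fun x hx => ?_) (σ.symm.injective.injOn)
      have hx' : x.1 ∈ A := (mem_product.1 (mem_coe.1 hx)).1
      refine mem_coe.2 (mem_product.2 ⟨mem_biUnion.2 ⟨x.1, hx', ?_⟩, mem_univ _⟩)
      simp only [t, mem_filter, mem_univ, true_and]
      exact ⟨(σ.symm x).2, by simp⟩
    rw [card_product, card_product, card_univ, Fintype.card_bool] at h1
    omega
  obtain ⟨f, hf, hft⟩ := (all_card_le_biUnion_card_iff_exists_injective t).1 hall
  have hc : ∀ k, ∃ c, (σ (f k, c)).1 = k := fun k => by simpa [t] using hft k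
  choose c hc using hc
  let fe : Perm (Fin n) := Equiv.ofBijective f (Finite.injective_iff_bijective.1 hf)
  let h1 : G n := lift fe * flipf fun k => !(c k)
  let h2 : G n := flipf fun k => !(σ (f k, c k)).2
  have hh1 : h1 ∈ Hn n := mul_mem (lift_mem_H _) (flipf_mem_H _)
  have hh2 : h2 ∈ Hn n := flipf_mem_H _
  have e1 : ∀ k, h1 (k, true) = (f k, c k) := by
    intro k
    have h3 : h1 (k, true) = lift fe ((flipf fun k => !(c k)) (k, true)) := rfl
    rw [h3, flipf_apply, lift_apply]
    refine Prod.ext rfl ?_
    show xor true (!(c k)) = c k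
    simp
  have e2 : ∀ k, h2 (k, true) = σ (f k, c k) := by
    intro k
    show flipf _ (k, true) = _
    rw [flipf_apply]
    refine Prod.ext (hc k).symm ?_
    show xor true (!(σ (f k, c k)).2) = (σ (f k, c k)).2
    simp
  set g : G n := h2⁻¹ * σ * h1 with hg
  have gt : ∀ k, g (k, true) = (k, true) := by
    intro k
    have : g (k, true) = h2⁻¹ (σ (h1 (k, true))) := rfl
    rw [this, e1, ← e2]
    simp
  have gf : ∀ k, (g (k, false)).2 = false := by
    intro k
    by_contra hcon
    have h3 : (g (k, false)).2 = true := by simpa using hcon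
    have h4 : g (k, false) = g ((g (k, false)).1, true) := by
      rw [gt]
      exact Prod.ext rfl h3
    have h5 := congrArg Prod.snd (g.injective h4)
    exact Bool.noConfusion h5
  have ginj : Function.Injective fun k : Fin n => (g (k, false)).1 := by
    intro k k' hk
    have : g (k, false) = g (k', false) := Prod.ext hk (by rw [gf, gf])
    exact congrArg Prod.fst (g.injective this)
  let ρ : Perm (Fin n) := Equiv.ofBijective _ (Finite.injective_iff_bijective.1 ginj)
  have hρ : g = evn ρ := by
    ext1 ⟨k, b⟩
    cases b
    · rw [evn_false]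
      exact Prod.ext rfl (gf k)
    · rw [evn_true, gt]
  refine ⟨ρ, h2, hh2, h1⁻¹, inv_mem hh1, ?_⟩
  rw [← hρ, hg]
  group

theorem mv_evn (ρ : Perm (Fin n)) : mv (evn ρ) = 2 * ρ.support.card := by
  have hinvf : ∀ k, (evn ρ)⁻¹ (k, false) = (ρ⁻¹ k, false) := by
    intro k
    rw [Perm.inv_eq_iff_eq, evn_false]
    simp
  have hinvt : ∀ k, (evn ρ)⁻¹ (k, true) = (k, true) := by
    intro k
    rw [Perm.inv_eq_iff_eq, evn_true]
  have h1 : (univ.filter fun x : Pt n => evn ρ (s0 n ((evn ρ)⁻¹ x)) ≠ s0 n x) =
      ρ.support ×ˢ (univ : Finset Bool) := by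
    ext ⟨k, b⟩
    simp only [mem_filter, mem_univ, true_and, mem_product, and_true, Perm.mem_support]
    cases b
    · rw [hinvf, s0_apply, s0_apply]
      show evn ρ (ρ⁻¹ k, true) ≠ (k, true) ↔ _
      rw [evn_true]
      constructor
      · intro h h2
        apply h
        rw [Perm.inv_eq_iff_eq.2 h2.symm]
      · intro h h2
        apply h
        exact (Perm.inv_eq_iff_eq.1 (congrArg Prod.fst h2)).symm
    · rw [hinvt]
      show evn ρ (k, false) ≠ (k, false) ↔ _
      rw [evn_false]
      constructor
      · intro h h2
        exact h (by rw [h2])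
      · intro h h2
        exact h (congrArg Prod.fst h2)
  unfold mv
  rw [h1, card_product, card_univ, Fintype.card_bool]
  omega

theorem formPerm_cons_cons' {b x : Fin n} {l : List (Fin n)} (h : (b :: x :: l).Nodup) :
    (b :: x :: l).formPerm = (b :: l).formPerm * swap b x := by
  rw [List.formPerm_cons_cons]
  cases l with
  | nil => simp
  | cons y l =>
    rw [List.formPerm_cons_cons, List.formPerm_cons_cons]
    have hb : b ∉ y :: l := by
      have := (List.nodup_cons.1 h).1
      exact fun h' => this (List.mem_cons_of_mem _ h')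
    have hx : x ∉ y :: l := (List.nodup_cons.1 (List.nodup_cons.1 h).2).1
    have hbx : b ≠ x := by
      have := (List.nodup_cons.1 h).1
      exact fun h' => this (by rw [h']; exact List.mem_cons_self)
    have hby : b ≠ y := fun h' => hb (by rw [h']; exact List.mem_cons_self)
    have hxy : x ≠ y := fun h' => hx (by rw [h']; exact List.mem_cons_self)
    have h1 : (y :: l).formPerm * swap b x = swap b x * (y :: l).formPerm := by
      rw [Equiv.mul_swap_eq_swap_mul, List.formPerm_apply_of_notMem hb,
        List.formPerm_apply_of_notMem hx]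
    rw [mul_assoc (swap b y), h1, ← mul_assoc, ← mul_assoc]
    congr 1
    rw [Equiv.mul_swap_eq_swap_mul (swap b x), swap_apply_right,
      swap_apply_of_ne_of_ne hby.symm hxy.symm]

theorem evn_formPerm {b : Fin n} {l : List (Fin n)} (h : (b :: l).Nodup) :
    evn (b :: l).formPerm = star (b, false) (l.map fun k => ((k, false) : Pt n)).reverse := by
  induction l with
  | nil => simp [star, evn_one]
  | cons x l ih =>
    have h' : (b :: l).Nodup := by
      rw [List.nodup_cons] at h ⊢
      exact ⟨fun h1 => h.1 (List.mem_cons_of_mem _ h1), (List.nodup_cons.1 h.2).2⟩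
    rw [formPerm_cons_cons' h, evn_mul, ih h', evn_swap, List.map_cons, List.reverse_cons]
    unfold star
    rw [List.map_append, List.prod_append]
    simp [swap_comm]

theorem exists_word (ρ : Perm (Fin n)) : ∃ D : List (Fin n × List (Pt n)), Valid D ∧
    evw D = evn ρ ∧ ((shape D).map (· + 1)).sum = ρ.support.card ∧ ∀ k ∈ shape D, 1 ≤ k := by
  induction ρ using Equiv.Perm.cycle_induction_on with
  | base_one => exact ⟨[], by simp [Valid], by simp [evw, evn_one], by simp [shape], by simp [shape]⟩
  | base_cycles c hc =>
    have hne : c.support.Nonempty := by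
      rw [nonempty_iff_ne_empty]
      exact fun h => hc.ne_one (Perm.support_eq_empty_iff.1 h)
    set b := c.support.max' hne with hb
    have hbs : b ∈ c.support := max'_mem _ _
    have hcyc : c.cycleOf b = c := hc.cycleOf_eq (Perm.mem_support.1 hbs)
    have hL : ∃ l, c.toList b = b :: l := by
      have h1 : c.support.card ≠ 0 := (card_pos.2 hne).ne'
      obtain ⟨m, hm⟩ := Nat.exists_eq_succ_of_ne_zero h1
      refine ⟨List.iterate c (c b) m, ?_⟩
      unfold Perm.toList
      rw [hcyc, hm]
      rfl
    obtain ⟨l, hl⟩ := hL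
    have hnd : (b :: l).Nodup := by
      rw [← hl]
      exact Perm.nodup_toList _ _
    have hlen : l.length + 1 = c.support.card := by
      have := Perm.length_toList c b
      rw [hl, hcyc] at this
      simpa using this
    have hfp : (b :: l).formPerm = c := by
      rw [← hl, Perm.formPerm_toList, hcyc]
    have hl1 : 1 ≤ l.length := by
      have := hc.two_le_card_support
      omega
    refine ⟨[(b, (l.map fun k => ((k, false) : Pt n)).reverse)], ?_, ?_, ?_, by simpa [shape] using hl1⟩
    · intro p hp a ha
      simp only [List.mem_singleton] at hp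
      subst hp
      simp only [List.mem_reverse, List.mem_map] at ha
      obtain ⟨k, hk, rfl⟩ := ha
      show k < b
      have h1 : k ≠ b := fun h => (List.nodup_cons.1 hnd).1 (by rw [← h]; exact hk)
      have h2 : k ∈ c.support := by
        have h3 : k ∈ c.toList b := by
          rw [hl]
          exact List.mem_cons_of_mem _ hk
        rw [Perm.mem_toList_iff] at h3
        have h4 := h3.1.mem_support_iff
        exact h4.1 h3.2
      exact lt_of_le_of_ne (le_max' _ _ h2) h1
    · have h1 := evn_formPerm hnd
      rw [hfp] at h1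
      rw [h1]
      simp [evw]
    · simp [shape, hlen]
  | induction_disjoint σ τ hd _ h1 h2 =>
    obtain ⟨D1, a1, a2, a3, a4⟩ := h1
    obtain ⟨D2, b1, b2, b3, b4⟩ := h2
    refine ⟨D1 ++ D2, ?_, ?_, ?_, ?_⟩
    · intro p hp
      rcases List.mem_append.1 hp with h | h
      · exact a1 p h
      · exact b1 p h
    · rw [evn_mul, ← a2, ← b2]
      unfold evw
      rw [List.map_append, List.prod_append]
    · rw [hd.card_support_mul, ← a3, ← b3]
      unfold shape
      rw [List.map_append, List.map_append, List.sum_append]
    · intro k hk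
      unfold shape at hk
      rw [List.map_append, List.mem_append] at hk
      rcases hk with hk | hk
      · exact a4 k hk
      · exact b4 k hk

end Pool.Agent.V8H85.OJM
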