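import Pool.Agent.V8H85.OJM.Reps

/-!
# Odd Jucys-Murphy elements: every element of the Hecke algebra is obtained
-/

set_option autoImplicit false

namespace Pool.Agent.V8H85.OJM

open Equiv Finset
open scoped Classical

variable {n : ℕ}

/-- The elements `F(J) P` with `F` symmetric. -/
noncomputable def Im (n : ℕ) : Submodule ℂ (A n) where
  carrier := {x | ∃ F : MvPolynomial (Fin n) ℂ, F.IsSymmetric ∧ x = Phi n F * P n}
  zero_mem' := ⟨0, MvPolynomial.IsSymmetric.zero, by simp⟩
  add_mem' := by
    rintro x y ⟨F, hF, rfl⟩ ⟨F', hF', rfl⟩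
    exact ⟨F + F', hF.add hF', by rw [map_add, add_mul]⟩
  smul_mem' := by
    rintro c x ⟨F, hF, rfl⟩
    exact ⟨c • F, hF.smul c, by rw [map_smul, smul_mul_assoc]⟩

theorem mem_Im {x : A n} :
    x ∈ Im n ↔ ∃ F : MvPolynomial (Fin n) ℂ, F.IsSymmetric ∧ x = Phi n F * P n := Iff.rfl

/-- The shapes that are needed: positive parts `μ` with `|μ| + ℓ(μ) ≤ n`. -/
def Small (n : ℕ) (μ : List ℕ) : Prop := (∀ k ∈ μ, 1 ≤ k) ∧ (μ.map (· + 1)).sum ≤ n

/-- The span of the products of power sums. -/
noncomputable def PS (n : ℕ) : Submodule ℂ (A n) :=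
  Submodule.span ℂ {x | ∃ μ : List ℕ, Small n μ ∧ x = Phi n (psums n μ) * P n}

theorem PS_le : PS n ≤ Im n := by
  unfold PS
  rw [Submodule.span_le]
  rintro x ⟨μ, -, rfl⟩
  exact ⟨_, psums_symm μ, rfl⟩

/-- For every `σ` there is an element of the image which is nonzero at `σ` and which, apart from
the double coset of `σ`, is supported on elements with fewer moved points. -/
theorem exists_lead (σ : G n) : ∃ Z ∈ PS n, IsHecke Z ∧ Z.coeff σ ≠ 0 ∧
    ∀ τ : G n, Z.coeff τ ≠ 0 → mv τ ≤ mv σ ∧
      (mv τ = mv σ → ∃ h ∈ Hn n, ∃ k ∈ Hn n, τ = h * σ * k) := by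
  obtain ⟨ρ, h, hh, k, hk, hσ⟩ := exists_rep σ
  obtain ⟨D, hD1, hD2, hD3, hD4⟩ := exists_word ρ
  have hsm : Small n (shape D) := by
    refine ⟨hD4, ?_⟩
    rw [hD3]
    exact (card_le_univ _).trans (by simp)
  have hmv : mv σ = 2 * (blocks D).length := by
    rw [hσ, mv_H hh hk, mv_evn, length_blocks, hD3]
  have hnd : (blocks D).Nodup := by
    apply nodup_of_mv
    rw [hD2, mv_evn, length_blocks, hD3]
  have hZ : IsHecke (Phi n (psums n (shape D)) * P n) := isHecke_of (sym_mem_B (psums_symm _))
  have hNN := (NN_psums (n := n) (shape D)).mul NN_P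
  refine ⟨Phi n (psums n (shape D)) * P n, Submodule.subset_span ⟨_, hsm, rfl⟩, hZ, ?_, ?_⟩
  · rw [hσ, hZ _ h hh k hk, hNN.2]
    exact ⟨evw D, ⟨D, hD1, rfl, rfl⟩, 1, one_mem (Hn n), by rw [hD2, mul_one]⟩
  · intro τ hτ
    obtain ⟨_, ⟨D', hD1', hD2', rfl⟩, b, hb, rfl⟩ := (hNN.2 τ).1 hτ
    have hb' : b ∈ Hn n := hb
    have h1 : mv (evw D' * b) = mv (evw D') := by
      have := mv_H (one_mem (Hn n)) hb' (evw D')
      rwa [one_mul] at this
    have h2 : (blocks D').length = (blocks D).length := by
      rw [length_blocks, length_blocks, hD2']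
    have h3 := mv_evw_le D'
    have h4 : (blocks D').toFinset.card ≤ (blocks D').length := List.toFinset_card_le _
    rw [h1, hmv]
    refine ⟨by omega, fun h5 => ?_⟩
    have hnd' : (blocks D').Nodup := nodup_of_mv (by omega)
    obtain ⟨g, hg, hgD⟩ := conj_words hD2'.symm hnd hnd'
    refine ⟨g * h⁻¹, mul_mem hg (inv_mem hh), k⁻¹ * (g⁻¹ * b),
      mul_mem (inv_mem hk) (mul_mem (inv_mem hg) hb'), ?_⟩
    rw [hgD, hD2, hσ]
    group

theorem isHecke_sub_smul {x y : A n} (hx : IsHecke x) (hy : IsHecke y) (c : ℂ) :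
    IsHecke (x - c • y) := by
  intro g h hh k hk
  have h1 : ∀ g, (x - c • y).coeff g = x.coeff g - c * y.coeff g := by
    intro g
    rw [MonoidAlgebra.coeff_sub, Finsupp.sub_apply, MonoidAlgebra.coeff_smul_apply, smul_eq_mul]
  rw [h1, h1, hx g h hh k hk, hy g h hh k hk]

theorem mem_of_lt (N : ℕ) : ∀ x : A n, IsHecke x → (∀ g, x.coeff g ≠ 0 → mv g < N) → x ∈ PS n := by
  induction N with
  | zero =>
    intro x _ hN
    have : x = 0 := by
      apply MonoidAlgebra.coeff_injective
      ext g
      by_contra hcon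
      exact absurd (hN g hcon) (Nat.not_lt_zero _)
    rw [this]
    exact zero_mem _
  | succ N ihN =>
    have key : ∀ m : ℕ, ∀ x : A n, IsHecke x → (∀ g, x.coeff g ≠ 0 → mv g < N + 1) →
        (univ.filter fun g => x.coeff g ≠ 0 ∧ mv g = N).card = m → x ∈ PS n := by
      intro m
      induction m using Nat.strong_induction_on with
      | _ m ih =>
        intro x hx hN hm
        by_cases hne : (univ.filter fun g => x.coeff g ≠ 0 ∧ mv g = N).Nonempty
        · obtain ⟨σ, hσ⟩ := hne
          have hσ' : x.coeff σ ≠ 0 ∧ mv σ = N := by simpa using hσ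
          obtain ⟨Z, hZI, hZ, hZσ, hlead⟩ := exists_lead σ
          have h1 : ∀ g, (x - (x.coeff σ / Z.coeff σ) • Z).coeff g =
              x.coeff g - x.coeff σ / Z.coeff σ * Z.coeff g := by
            intro g
            rw [MonoidAlgebra.coeff_sub, Finsupp.sub_apply, MonoidAlgebra.coeff_smul_apply,
              smul_eq_mul]
          have h2 : ∀ τ, Z.coeff τ ≠ 0 → mv τ = N →
              (x - (x.coeff σ / Z.coeff σ) • Z).coeff τ = 0 := by
            intro τ h3 h4
            obtain ⟨h, hh, k, hk, rfl⟩ := (hlead τ h3).2 (by rw [h4, hσ'.2])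
            rw [h1, hx σ h hh k hk, hZ σ h hh k hk, div_mul_cancel₀ _ hZσ, sub_self]
          have h3 : x - (x.coeff σ / Z.coeff σ) • Z ∈ PS n := by
            refine ih _ ?_ _ (isHecke_sub_smul hx hZ _) ?_ rfl
            · rw [← hm]
              refine card_lt_card ⟨fun τ hτ => ?_, fun hsub => ?_⟩
              · have hτ' : (x - (x.coeff σ / Z.coeff σ) • Z).coeff τ ≠ 0 ∧ mv τ = N :=
                  (mem_filter.1 hτ).2
                have h4 : Z.coeff τ = 0 := by
                  by_contra hcon
                  exact hτ'.1 (h2 τ hcon hτ'.2)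
                have h5 := hτ'.1
                rw [h1, h4, mul_zero, sub_zero] at h5
                simp only [mem_filter, mem_univ, true_and]
                exact ⟨h5, hτ'.2⟩
              · have h4 := hsub hσ
                simp only [mem_filter, mem_univ, true_and] at h4
                exact h4.1 (h2 σ hZσ hσ'.2)
            · intro g hg
              by_cases h4 : Z.coeff g = 0
              · rw [h1, h4, mul_zero, sub_zero] at hg
                exact hN g hg
              · have := (hlead g h4).1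
                omega
          have h4 : x = (x - (x.coeff σ / Z.coeff σ) • Z) + (x.coeff σ / Z.coeff σ) • Z := by
            abel
          rw [h4]
          exact add_mem h3 (Submodule.smul_mem _ _ hZI)
        · refine ihN x hx fun g hg => ?_
          have h1 := hN g hg
          have h2 : mv g ≠ N := by
            intro h3
            apply hne
            exact ⟨g, by simp only [mem_filter, mem_univ, true_and]; exact ⟨hg, h3⟩⟩
          omega
    intro x hx hN
    exact key _ x hx hN rfl

theorem mem_PS {x : A n} (hx : IsHecke x) : x ∈ PS n :=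
  mem_of_lt ((univ.sup mv) + 1) x hx fun g _ => Nat.lt_succ_of_le (le_sup (mem_univ g))

theorem isHecke_Im {x : A n} (hx : x ∈ Im n) : IsHecke x := by
  obtain ⟨F, hF, rfl⟩ := hx
  exact isHecke_of (sym_mem_B hF)

/-- Monomials are evaluated as ordered products. -/
theorem Phi_eq (F : MvPolynomial (Fin n) ℂ) : Phi n F =
    ∑ α ∈ F.support, F.coeff α • (List.ofFn fun b => J b ^ α b).prod := by
  conv_lhs => rw [F.as_sum]
  rw [map_sum]
  refine sum_congr rfl fun α _ => ?_
  have h1 : MvPolynomial.monomial α (F.coeff α) =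
      F.coeff α • (List.ofFn fun b : Fin n => (MvPolynomial.X b : MvPolynomial (Fin n) ℂ) ^ α b).prod := by
    rw [MvPolynomial.monomial_eq, Finsupp.prod_fintype _ _ (fun b => pow_zero _), List.prod_ofFn,
      MvPolynomial.C_mul']
  rw [h1, map_smul, map_list_prod, List.map_ofFn]
  congr 3
  funext b
  rw [Function.comp_apply, map_pow, Phi_X]

end Pool.Agent.V8H85.OJM
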