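import Pool.Agent.V8H85.OJM.Inv

/-!
# Odd Jucys-Murphy elements: symmetric polynomials give elements of the Hecke algebra
-/

set_option autoImplicit false

namespace Pool.Agent.V8H85.OJM

open Equiv Finset
open scoped Classical

variable {n : ℕ}

/-- Elementary symmetric polynomials of the odd Jucys-Murphy elements are in `B`. -/
theorem esymm_mem_B (r : ℕ) : Phi n (MvPolynomial.esymm (Fin n) ℂ r) ∈ B n := by
  by_cases hr : n < r
  · have : MvPolynomial.esymm (Fin n) ℂ r = 0 := by
      unfold MvPolynomial.esymm
      rw [powersetCard_eq_empty.2 (by simpa using hr), sum_empty]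
    rw [this, map_zero]
    exact zero_mem _
  · have hr' : r ≤ n := by omega
    by_contra hcon
    have hcon' : Phi n (MvPolynomial.esymm (Fin n) ℂ r) ∉ Subalgebra.toSubmodule (B n) := hcon
    obtain ⟨φ, hφ, hker⟩ := Submodule.exists_le_ker_of_notMem hcon'
    have hexp : ∀ t : ℂ, Phi n (∏ b, (MvPolynomial.C t + MvPolynomial.X b)) =
        ∑ j ∈ range (n + 1), t ^ (n - j) • Phi n (MvPolynomial.esymm (Fin n) ℂ j) := by
      intro t
      have h1 := MvPolynomial.prod_C_add_X_eq_sum_esymm ℂ (Fin n)
      have h2 := congrArg (Polynomial.eval (MvPolynomial.C t)) h1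
      rw [Polynomial.eval_prod, Polynomial.eval_finsetSum, Fintype.card_fin] at h2
      simp only [Polynomial.eval_add, Polynomial.eval_X, Polynomial.eval_C, Polynomial.eval_mul,
        Polynomial.eval_pow] at h2
      rw [h2, map_sum]
      refine sum_congr rfl fun j _ => ?_
      rw [← map_pow, mul_comm, MvPolynomial.C_mul', map_smul]
    let q : Polynomial ℂ := ∑ j ∈ range (n + 1),
      Polynomial.monomial (n - j) (φ (Phi n (MvPolynomial.esymm (Fin n) ℂ j)))
    have hq : q = 0 := by
      refine Polynomial.funext fun t => ?_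
      have h3 : φ (Phi n (∏ b, (MvPolynomial.C t + MvPolynomial.X b))) = 0 :=
        hker (prod_mem_B t)
      rw [hexp, map_sum] at h3
      rw [Polynomial.eval_zero, ← h3, Polynomial.eval_finsetSum]
      refine sum_congr rfl fun j _ => ?_
      rw [Polynomial.eval_monomial, map_smul, smul_eq_mul, mul_comm]
    have hc : q.coeff (n - r) = φ (Phi n (MvPolynomial.esymm (Fin n) ℂ r)) := by
      simp only [q, Polynomial.finsetSum_coeff, Polynomial.coeff_monomial]
      rw [sum_eq_single r]
      · rw [if_pos rfl]
      · intro j hj hjr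
        rw [if_neg]
        have : j < n + 1 := mem_range.1 hj
        omega
      · intro h
        exact absurd (mem_range.2 (by omega)) h
    rw [hq, Polynomial.coeff_zero] at hc
    exact hφ hc.symm

/-- Symmetric polynomials of the odd Jucys-Murphy elements are in `B`. -/
theorem sym_mem_B {F : MvPolynomial (Fin n) ℂ} (hF : F.IsSymmetric) : Phi n F ∈ B n := by
  obtain ⟨Q, hQ⟩ := MvPolynomial.esymmAlgHom_surjective ℂ (σ := Fin n) (n := n) (by simp)
    ⟨F, hF⟩
  have h1 := MvPolynomial.esymmAlgHom_apply (σ := Fin n) (R := ℂ) (n := n) Q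
  rw [hQ] at h1
  have h2 : F = MvPolynomial.aeval (fun i : Fin n => MvPolynomial.esymm (Fin n) ℂ (i + 1)) Q := h1
  rw [h2]
  clear h1 h2 hQ hF
  induction Q using MvPolynomial.induction_on with
  | C a =>
    rw [MvPolynomial.aeval_C, AlgHom.commutes]
    exact algebraMap_mem _ _
  | add p q hp hq =>
    rw [map_add, map_add]
    exact add_mem hp hq
  | mul_X p i hp =>
    rw [map_mul, map_mul, MvPolynomial.aeval_X]
    exact mul_mem hp (esymm_mem_B _)

/-- The coefficient function is constant on the double cosets of the hyperoctahedral group. -/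
def IsHecke (x : A n) : Prop :=
  ∀ g : G n, ∀ h ∈ Hn n, ∀ k ∈ Hn n, x.coeff (h * g * k) = x.coeff g

theorem e_mul_apply (h g : G n) (x : A n) : (e h * x).coeff (h * g) = x.coeff g := by
  unfold e
  rw [MonoidAlgebra.of_apply, MonoidAlgebra.coeff_single_mul_apply, one_mul,
    inv_mul_cancel_left]

theorem mul_e_apply (h g : G n) (x : A n) : (x * e h).coeff (g * h) = x.coeff g := by
  unfold e
  rw [MonoidAlgebra.of_apply, MonoidAlgebra.coeff_mul_single_apply, mul_one,
    mul_inv_cancel_right]

theorem isHecke_of {x : A n} (hx : x ∈ B n) : IsHecke (x * P n) := by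
  intro g h hh k hk
  have h1 : (x * P n).coeff (h * g * k) = (x * P n).coeff (h * g) := by
    conv_lhs => rw [← P_mul_e hk, ← mul_assoc]
    exact mul_e_apply _ _ _
  rw [h1]
  conv_lhs => rw [← hx h hh]
  exact e_mul_apply _ _ _

end Pool.Agent.V8H85.OJM
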