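import Pool.Agent.V8H85.OJM.Sym

/-!
# Odd Jucys-Murphy elements: supports of products of power sums
-/

set_option autoImplicit false

namespace Pool.Agent.V8H85.OJM

open Equiv Finset
open scoped Classical

variable {n : ℕ}

/-- The coefficients are natural numbers, and they are nonzero exactly on `S`. -/
def NN (x : A n) (S : Set (G n)) : Prop :=
  (∀ g, ∃ r : ℕ, x.coeff g = r) ∧ ∀ g, x.coeff g ≠ 0 ↔ g ∈ S

theorem NN_zero : NN (0 : A n) ∅ := ⟨fun g => ⟨0, by simp⟩, fun g => by simp⟩

theorem NN_e (g : G n) : NN (e g) {g} := by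
  have h : ∀ k, (e g).coeff k = if g = k then 1 else 0 := by
    intro k
    unfold e
    rw [MonoidAlgebra.of_apply, MonoidAlgebra.coeff_single_apply]
  refine ⟨fun k => ?_, fun k => ?_⟩
  · rw [h]
    split_ifs
    · exact ⟨1, by simp⟩
    · exact ⟨0, by simp⟩
  · rw [h]
    split_ifs with h1
    · simp [h1]
    · simp only [ne_eq, not_true_eq_false, Set.mem_singleton_iff, false_iff]
      exact fun h2 => h1 h2.symm

theorem NN_one : NN (1 : A n) {1} := by
  rw [← e_one]
  exact NN_e 1

theorem NN.add {x y : A n} {S T : Set (G n)} (hx : NN x S) (hy : NN y T) : NN (x + y) (S ∪ T) := by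
  refine ⟨fun g => ?_, fun g => ?_⟩
  · obtain ⟨r, hr⟩ := hx.1 g
    obtain ⟨s, hs⟩ := hy.1 g
    exact ⟨r + s, by rw [MonoidAlgebra.coeff_add, Finsupp.add_apply, hr, hs]; push_cast; rfl⟩
  · obtain ⟨r, hr⟩ := hx.1 g
    obtain ⟨s, hs⟩ := hy.1 g
    rw [Set.mem_union, ← hx.2 g, ← hy.2 g, MonoidAlgebra.coeff_add, Finsupp.add_apply, hr, hs]
    norm_cast
    omega

theorem NN_sum {ι : Type} (s : Finset ι) (x : ι → A n) (S : ι → Set (G n))
    (h : ∀ i ∈ s, NN (x i) (S i)) : NN (∑ i ∈ s, x i) {g | ∃ i ∈ s, g ∈ S i} := by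
  induction s using Finset.induction_on with
  | empty =>
    rw [sum_empty]
    convert NN_zero using 1
    ext g
    simp
  | insert a s ha ih =>
    rw [sum_insert ha]
    have := (h a (mem_insert_self _ _)).add (ih fun i hi => h i (mem_insert_of_mem hi))
    convert this using 1
    ext g
    simp

theorem NN.mul {x y : A n} {S T : Set (G n)} (hx : NN x S) (hy : NN y T) :
    NN (x * y) {g | ∃ a ∈ S, ∃ b ∈ T, a * b = g} := by
  choose r hr using hx.1
  choose s hs using hy.1
  have h : ∀ g, (x * y).coeff g = ((∑ a : G n, r a * s (a⁻¹ * g) : ℕ) : ℂ) := by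
    intro g
    rw [MonoidAlgebra.coeff_mul_apply_left, Finsupp.sum_fintype _ _ (fun a => by rw [zero_mul])]
    push_cast
    exact sum_congr rfl fun a _ => by rw [hr, hs]
  refine ⟨fun g => ⟨_, h g⟩, fun g => ?_⟩
  rw [h, Nat.cast_ne_zero, ← Nat.pos_iff_ne_zero, sum_pos_iff]
  constructor
  · rintro ⟨a, -, ha⟩
    have h1 := Nat.pos_of_mul_pos_left ha
    have h2 := Nat.pos_of_mul_pos_right ha
    refine ⟨a, (hx.2 a).1 ?_, a⁻¹ * g, (hy.2 _).1 ?_, by simp⟩
    · rw [hr, Nat.cast_ne_zero]; omega
    · rw [hs, Nat.cast_ne_zero]; omega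
  · rintro ⟨a, ha, b, hb, rfl⟩
    have h1 := (hx.2 a).2 ha
    have h2 := (hy.2 b).2 hb
    rw [hr, Nat.cast_ne_zero] at h1
    rw [hs, Nat.cast_ne_zero] at h2
    refine ⟨a, mem_univ _, ?_⟩
    rw [inv_mul_cancel_left]
    exact Nat.mul_pos (by omega) (by omega)

theorem NN_P : NN (P n) {g | g ∈ Hn n} := by
  have := NN_sum (n := n) (univ.filter (· ∈ Hn n)) (fun g => e g) (fun g => {g})
    (fun g _ => NN_e g)
  unfold P
  convert this using 1
  ext g
  simp

/-- A product of transpositions with a fixed centre. -/
def star (c : Pt n) (xs : List (Pt n)) : G n := (xs.map fun a => swap a c).prod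

/-- The permutation of a word: each letter is a centre with a list of leaves. -/
def evw (D : List (Fin n × List (Pt n))) : G n := (D.map fun p => star (p.1, false) p.2).prod

/-- The leaves are below the centre. -/
def Valid (D : List (Fin n × List (Pt n))) : Prop := ∀ p ∈ D, ∀ a ∈ p.2, a.1 < p.1

/-- The numbers of leaves. -/
def shape (D : List (Fin n × List (Pt n))) : List ℕ := D.map fun p => p.2.length

theorem NN_J (b : Fin n) : NN (J b) {g | ∃ a : Pt n, a.1 < b ∧ swap a (b, false) = g} := by
  unfold J SS
  have := NN_sum (n := n) (univ.filter fun a : Pt n => a.1 < b)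
    (fun a => e (swap a ((b, false) : Pt n)))
    (fun a => {swap a ((b, false) : Pt n)}) (fun a _ => NN_e _)
  convert this using 1
  · convert rfl
  · ext g
    simp only [mem_filter, mem_univ, true_and, Set.mem_setOf_eq, Set.mem_singleton_iff]
    constructor
    · rintro ⟨a, h1, h2⟩
      exact ⟨a, h1, h2.symm⟩
    · rintro ⟨a, h1, h2⟩
      exact ⟨a, h1, h2.symm⟩

theorem NN_Jpow (b : Fin n) (k : ℕ) : NN (J b ^ k)
    {g | ∃ xs : List (Pt n), xs.length = k ∧ (∀ a ∈ xs, a.1 < b) ∧ star (b, false) xs = g} := by
  induction k with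
  | zero =>
    rw [pow_zero]
    convert NN_one using 1
    ext g
    simp only [Set.mem_setOf_eq, Set.mem_singleton_iff]
    constructor
    · rintro ⟨xs, h1, -, h3⟩
      rw [List.length_eq_zero_iff] at h1
      rw [← h3, h1]
      rfl
    · rintro rfl
      exact ⟨[], rfl, by simp, rfl⟩
  | succ k ih =>
    rw [pow_succ']
    convert (NN_J b).mul ih using 1
    ext g
    simp only [Set.mem_setOf_eq]
    constructor
    · rintro ⟨xs, h1, h2, h3⟩
      obtain ⟨a, ys, rfl⟩ := List.exists_cons_of_length_eq_add_one h1
      refine ⟨swap a (b, false), ⟨a, h2 a (by simp), rfl⟩, star (b, false) ys,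
        ⟨ys, by simpa using h1, fun c hc => h2 c (List.mem_cons_of_mem _ hc), rfl⟩, ?_⟩
      rw [← h3]
      simp [star]
    · rintro ⟨_, ⟨a, h1, rfl⟩, _, ⟨ys, h2, h3, rfl⟩, rfl⟩
      refine ⟨a :: ys, by simp [h2], ?_, by simp [star]⟩
      intro c hc
      rcases List.mem_cons.1 hc with rfl | hc
      · exact h1
      · exact h3 c hc

/-- The product of the power sums of the given degrees. -/
noncomputable def psums (n : ℕ) (μ : List ℕ) : MvPolynomial (Fin n) ℂ :=
  (μ.map fun k => MvPolynomial.psum (Fin n) ℂ k).prod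

theorem psums_symm (μ : List ℕ) : (psums n μ).IsSymmetric := by
  induction μ with
  | nil => exact MvPolynomial.IsSymmetric.one
  | cons k μ ih =>
    unfold psums
    rw [List.map_cons, List.prod_cons]
    exact (MvPolynomial.psum_isSymmetric _ _ k).mul ih

theorem Phi_psum (k : ℕ) : Phi n (MvPolynomial.psum (Fin n) ℂ k) = ∑ b, J b ^ k := by
  unfold MvPolynomial.psum
  rw [map_sum]
  exact sum_congr rfl fun b _ => by rw [map_pow, Phi_X]

theorem NN_psums (μ : List ℕ) : NN (Phi n (psums n μ))
    {g | ∃ D : List (Fin n × List (Pt n)), Valid D ∧ shape D = μ ∧ evw D = g} := by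
  induction μ with
  | nil =>
    unfold psums
    rw [List.map_nil, List.prod_nil, map_one]
    convert NN_one using 1
    ext g
    simp only [Set.mem_setOf_eq, Set.mem_singleton_iff]
    constructor
    · rintro ⟨D, -, h2, h3⟩
      have : D = [] := by simpa [shape] using h2
      rw [← h3, this]
      rfl
    · rintro rfl
      exact ⟨[], by simp [Valid], rfl, rfl⟩
  | cons k μ ih =>
    have h1 : psums n (k :: μ) = MvPolynomial.psum (Fin n) ℂ k * psums n μ := by
      unfold psums
      rw [List.map_cons, List.prod_cons]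
    rw [h1, map_mul, Phi_psum]
    have h2 := NN_sum (n := n) univ (fun b : Fin n => J b ^ k) _ (fun b _ => NN_Jpow b k)
    convert h2.mul ih using 1
    ext g
    simp only [Set.mem_setOf_eq, mem_univ, true_and]
    constructor
    · rintro ⟨D, h1, h2, h3⟩
      cases D with
      | nil => simp [shape] at h2
      | cons p D =>
        have h2' : p.2.length = k ∧ shape D = μ := by
          simpa [shape] using h2
        refine ⟨star (p.1, false) p.2, ⟨p.1, p.2, h2'.1, h1 p (by simp), rfl⟩, evw D,
          ⟨D, fun q hq => h1 q (List.mem_cons_of_mem _ hq), h2'.2, rfl⟩, ?_⟩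
        rw [← h3]
        simp [evw]
    · rintro ⟨_, ⟨b, xs, h1, h2, rfl⟩, _, ⟨D, h3, h4, rfl⟩, rfl⟩
      refine ⟨(b, xs) :: D, ?_, by simp [shape, h1] at *; exact h4, by simp [evw]⟩
      intro q hq
      rcases List.mem_cons.1 hq with rfl | hq
      · exact h2
      · exact h3 q hq

/-- The number of moved points. -/
noncomputable def mv (g : G n) : ℕ := (univ.filter fun x : Pt n => g (s0 n (g⁻¹ x)) ≠ s0 n x).card

theorem mv_H {h k : G n} (hh : h ∈ Hn n) (hk : k ∈ Hn n) (g : G n) : mv (h * g * k) = mv g := by
  unfold mv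
  symm
  refine card_bij (fun x _ => h x) (fun x hx => ?_) (fun x _ y _ hxy => h.injective hxy)
    (fun y hy => ?_)
  · simp only [mem_filter, mem_univ, true_and] at hx ⊢
    intro h1
    apply hx
    have h2 : (h * g * k)⁻¹ (h x) = k⁻¹ (g⁻¹ x) := by simp [mul_inv_rev, mul_assoc]
    rw [h2, ← hh x] at h1
    have h3 : k (s0 n (k⁻¹ (g⁻¹ x))) = s0 n (g⁻¹ x) := by
      rw [hk (k⁻¹ (g⁻¹ x))]
      simp
    have h4 : (h * g * k) (s0 n (k⁻¹ (g⁻¹ x))) = h (g (k (s0 n (k⁻¹ (g⁻¹ x))))) := rfl
    rw [h4, h3] at h1
    exact h.injective h1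
  · simp only [mem_filter, mem_univ, true_and] at hy
    refine ⟨h⁻¹ y, ?_, by simp⟩
    simp only [mem_filter, mem_univ, true_and]
    intro h1
    apply hy
    have h2 : (h * g * k)⁻¹ y = k⁻¹ (g⁻¹ (h⁻¹ y)) := by simp [mul_inv_rev, mul_assoc]
    have h3 : k (s0 n (k⁻¹ (g⁻¹ (h⁻¹ y)))) = s0 n (g⁻¹ (h⁻¹ y)) := by
      rw [hk (k⁻¹ (g⁻¹ (h⁻¹ y)))]
      simp
    have h4 : (h * g * k) (s0 n (k⁻¹ (g⁻¹ (h⁻¹ y)))) = h (g (k (s0 n (k⁻¹ (g⁻¹ (h⁻¹ y)))))) := rfl
    rw [h2, h4, h3, h1, hh (h⁻¹ y)]
    simp

theorem mv_le (g : G n) (T : Finset (Fin n)) (hT : ∀ x : Pt n, x.1 ∉ T → g x = x) :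
    mv g ≤ 2 * T.card := by
  have h1 : (univ.filter fun x : Pt n => g (s0 n (g⁻¹ x)) ≠ s0 n x) ⊆ T ×ˢ (univ : Finset Bool) := by
    intro x hx
    simp only [mem_filter, mem_univ, true_and] at hx
    rw [mem_product]
    refine ⟨?_, mem_univ _⟩
    by_contra hcon
    apply hx
    have h2 : g⁻¹ x = x := by
      rw [Perm.inv_eq_iff_eq]
      exact (hT x hcon).symm
    rw [h2, hT]
    exact hcon
  have h2 := card_le_card h1
  rw [card_product, card_univ, Fintype.card_bool] at h2
  unfold mv
  omega

/-- The blocks touched by a word, with multiplicity. -/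
def blocks (D : List (Fin n × List (Pt n))) : List (Fin n) :=
  D.flatMap fun p => p.1 :: p.2.map Prod.fst

theorem star_fix {c : Pt n} {xs : List (Pt n)} {x : Pt n} (h1 : x.1 ≠ c.1)
    (h2 : x.1 ∉ xs.map Prod.fst) : star c xs x = x := by
  induction xs with
  | nil => rfl
  | cons a xs ih =>
    have h3 : star c (a :: xs) x = swap a c (star c xs x) := by simp [star]
    rw [List.map_cons, List.mem_cons, not_or] at h2
    rw [h3, ih h2.2, swap_apply_of_ne_of_ne]
    · exact fun h => h2.1 (congrArg Prod.fst h)
    · exact fun h => h1 (congrArg Prod.fst h)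

theorem evw_fix {D : List (Fin n × List (Pt n))} {x : Pt n} (h : x.1 ∉ blocks D) : evw D x = x := by
  induction D with
  | nil => rfl
  | cons p D ih =>
    have h1 : evw (p :: D) x = star (p.1, false) p.2 (evw D x) := by simp [evw]
    have h2 : blocks (p :: D) = (p.1 :: p.2.map Prod.fst) ++ blocks D := by simp [blocks]
    rw [h2, List.mem_append, not_or, List.mem_cons, not_or] at h
    rw [h1, ih h.2, star_fix h.1.1 h.1.2]

theorem mv_evw_le (D : List (Fin n × List (Pt n))) : mv (evw D) ≤ 2 * (blocks D).toFinset.card :=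
  mv_le _ _ fun _ hx => evw_fix fun h => hx (List.mem_toFinset.2 h)

theorem length_blocks (D : List (Fin n × List (Pt n))) :
    (blocks D).length = ((shape D).map (· + 1)).sum := by
  induction D with
  | nil => rfl
  | cons p D ih =>
    have h2 : blocks (p :: D) = (p.1 :: p.2.map Prod.fst) ++ blocks D := by simp [blocks]
    rw [h2, List.length_append, ih]
    simp [shape]

theorem nodup_of_mv {D : List (Fin n × List (Pt n))} (h : 2 * (blocks D).length ≤ mv (evw D)) :
    (blocks D).Nodup := by
  have h1 := mv_evw_le D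
  have h2 : (blocks D).length ≤ (blocks D).dedup.length := by
    rw [List.card_toFinset] at h1
    omega
  have h3 : (blocks D).dedup = blocks D :=
    (List.dedup_sublist _).eq_of_length_le h2
  rw [← h3]
  exact List.nodup_dedup _

/-- An element of the hyperoctahedral group with prescribed values on points of different blocks. -/
theorem exists_move (L L' : List (Pt n)) (hl : L.length = L'.length) (h1 : (L.map Prod.fst).Nodup)
    (h2 : (L'.map Prod.fst).Nodup) : ∃ h ∈ Hn n, L.map h = L' := by
  induction L generalizing L' with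
  | nil =>
    have : L' = [] := List.length_eq_zero_iff.1 hl.symm
    exact ⟨1, one_mem _, by simp [this]⟩
  | cons x L ih =>
    cases L' with
    | nil => simp at hl
    | cons x' L' =>
      rw [List.map_cons, List.nodup_cons] at h1 h2
      obtain ⟨h, hh, hL⟩ := ih L' (by simpa using hl) h1.2 h2.2
      have hfst : ∀ y z : Pt n, y.1 = z.1 → (h y).1 = (h z).1 := by
        intro y z hyz
        rcases Bool.eq_or_eq_not y.2 z.2 with hc | hc
        · rw [Prod.ext hyz hc]
        · have : y = s0 n z := Prod.ext hyz hc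
          rw [this, hh z]
          rfl
      have hinj : ∀ y z : Pt n, (h y).1 = (h z).1 → y.1 = z.1 := by
        intro y z hyz
        rcases Bool.eq_or_eq_not (h y).2 (h z).2 with hc | hc
        · rw [h.injective (Prod.ext hyz hc)]
        · have h3 : h y = s0 n (h z) := Prod.ext hyz hc
          rw [← hh z] at h3
          rw [h.injective h3]
          rfl
      have hx : (h x).1 ∉ L'.map Prod.fst := by
        rw [← hL, List.map_map]
        intro hm
        rw [List.mem_map] at hm
        obtain ⟨y, hy, hy2⟩ := hm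
        exact h1.1 (List.mem_map.2 ⟨y, hy, hinj _ _ hy2⟩)
      have main : ∃ g ∈ Hn n, g (h x) = x' ∧ ∀ y : Pt n, y.1 ∉ [(h x).1, x'.1] → g y = y := by
        by_cases hc : h x = s0 n x'
        · refine ⟨swap x' (s0 n x'), ?_, ?_, ?_⟩
          · intro z
            have h3 : s0 n * swap x' (s0 n x') = swap (s0 n x') (s0 n (s0 n x')) * s0 n :=
              Equiv.mul_swap_eq_swap_mul _ _ _
            rw [s0_s0, swap_comm (s0 n x')] at h3
            exact (congrArg (fun g : G n => g z) h3).symm
          · rw [hc, swap_apply_right]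
          · intro y hy
            rw [swap_apply_of_ne_of_ne]
            · rintro rfl
              simp at hy
            · rintro rfl
              simp [s0_apply] at hy
        · refine ⟨swap (s0 n (h x)) (s0 n x') * swap (h x) x', swap_pair_mem hc, ?_, ?_⟩
          · rw [Perm.mul_apply, swap_apply_left, swap_apply_of_ne_of_ne]
            · intro h3
              apply hc
              rw [h3, s0_s0]
            · exact (s0_ne x').symm
          · intro y hy
            simp only [List.mem_cons, List.not_mem_nil, or_false, not_or] at hy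
            rw [Perm.mul_apply, swap_apply_of_ne_of_ne (a := h x), swap_apply_of_ne_of_ne]
            · rintro rfl
              exact hy.1 rfl
            · rintro rfl
              exact hy.2 rfl
            · rintro rfl
              exact hy.1 rfl
            · rintro rfl
              exact hy.2 rfl
      obtain ⟨g, hg, hgx, hgf⟩ := main
      refine ⟨g * h, mul_mem hg hh, ?_⟩
      rw [List.map_cons, Perm.mul_apply, hgx]
      congr 1
      conv_rhs => rw [← hL]
      refine List.map_congr_left fun y hy => ?_
      rw [Perm.mul_apply]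
      apply hgf
      have hy' : h y ∈ L' := by
        rw [← hL]
        exact List.mem_map.2 ⟨y, hy, rfl⟩
      simp only [List.mem_cons, List.not_mem_nil, or_false, not_or]
      constructor
      · intro h3
        exact hx (List.mem_map.2 ⟨_, hy', h3⟩)
      · intro h3
        exact h2.1 (List.mem_map.2 ⟨_, hy', h3⟩)

/-- The permutation of a list of points: the first one is the centre. -/
def st : List (Pt n) → G n
  | [] => 1
  | c :: xs => star c xs

theorem st_map (h : G n) (L : List (Pt n)) : st (L.map h) = h * st L * h⁻¹ := by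
  cases L with
  | nil => simp [st]
  | cons c xs =>
    rw [List.map_cons]
    show star (h c) (xs.map h) = h * star c xs * h⁻¹
    induction xs with
    | nil => simp [star]
    | cons a xs ih =>
      have h1 : star (h c) ((a :: xs).map h) = swap (h a) (h c) * star (h c) (xs.map h) := by
        simp [star]
      have h2 : star c (a :: xs) = swap a c * star c xs := by simp [star]
      rw [h1, ih, h2]
      have h3 : swap (h a) (h c) = h * swap a c * h⁻¹ := by
        rw [Equiv.mul_swap_eq_swap_mul, mul_inv_cancel_right]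
      rw [h3]
      group

theorem prod_st_map (h : G n) (Ls : List (List (Pt n))) :
    ((Ls.map (List.map h)).map st).prod = h * (Ls.map st).prod * h⁻¹ := by
  induction Ls with
  | nil => simp
  | cons L Ls ih =>
    rw [List.map_cons, List.map_cons, List.prod_cons, ih, st_map, List.map_cons, List.prod_cons]
    group

/-- Two words of the same shape which touch each block at most once are conjugate under the
hyperoctahedral group. -/
theorem conj_words {D D' : List (Fin n × List (Pt n))} (hs : shape D = shape D')
    (h1 : (blocks D).Nodup) (h2 : (blocks D').Nodup) : ∃ h ∈ Hn n, evw D' = h * evw D * h⁻¹ := by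
  let f : Fin n × List (Pt n) → List (Pt n) := fun p => (p.1, false) :: p.2
  have hb : ∀ D : List (Fin n × List (Pt n)), (D.map f).flatten.map Prod.fst = blocks D := by
    intro D
    induction D with
    | nil => rfl
    | cons p D ih =>
      rw [List.map_cons, List.flatten_cons, List.map_append, ih]
      simp [blocks, f]
  have he : ∀ D : List (Fin n × List (Pt n)), evw D = ((D.map f).map st).prod := by
    intro D
    unfold evw
    rw [List.map_map]
    rfl
  have hlen : ∀ D : List (Fin n × List (Pt n)), (D.map f).map List.length = (shape D).map (· + 1) := by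
    intro D
    simp [shape, f]
  obtain ⟨h, hh, hL⟩ := exists_move (D.map f).flatten (D'.map f).flatten (by
    have h3 := length_blocks D
    have h4 := length_blocks D'
    rw [← hb, List.length_map] at h3
    rw [← hb, List.length_map] at h4
    rw [h3, h4, hs]) (by rw [hb]; exact h1) (by rw [hb]; exact h2)
  refine ⟨h, hh, ?_⟩
  have h5 : (D.map f).map (List.map h) = D'.map f := by
    rw [List.eq_iff_flatten_eq]
    refine ⟨?_, ?_⟩
    · rw [← List.map_flatten]
      exact hL
    · rw [hlen, ← hs, ← hlen, List.map_map]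
      refine List.map_congr_left fun L _ => ?_
      simp
  rw [he, he, ← h5, prod_st_map]

end Pool.Agent.V8H85.OJM
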